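import Mathlib
import Pool.Agent.Helper93.Bq.GL

/-!
# Places of `ℚ`; the curves `y² = x³ + m⁴ a x + m⁶ b`
-/

set_option autoImplicit false
set_option linter.unusedSectionVars false
set_option linter.style.haveILetI false

open NumberField IsDedekindDomain

namespace Pool.Agent.Helper93.X49

open Pool.Agent.Helper93.Bq (cnt ap ef HasL Good card_eq ap_twist Sol)

open Rat.HeightOneSpectrum in
theorem quot (v : HeightOneSpectrum (𝓞 ℚ)) :
    Nonempty (𝓞 ℚ ⧸ v.asIdeal ≃+* ZMod (natGenerator v)) := by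
  have h1 := span_natGenerator v
  exact ⟨(Ideal.quotientEquiv v.asIdeal (Ideal.span {(natGenerator v : ℤ)})
    (Rat.IsIntegralClosure.intEquiv (𝓞 ℚ)) h1).trans (Int.quotientSpanNatEquivZMod _)⟩

open Rat.HeightOneSpectrum in
theorem absNorm_eq (v : HeightOneSpectrum (𝓞 ℚ)) : Ideal.absNorm v.asIdeal = natGenerator v := by
  obtain ⟨e⟩ := quot v
  rw [Ideal.absNorm_apply, Submodule.cardQuot_apply, Nat.card_congr e.toEquiv, Nat.card_zmod]

open Rat.HeightOneSpectrum in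
theorem mem_iff (v : HeightOneSpectrum (𝓞 ℚ)) (n : ℤ) :
    ((n : ℤ) : 𝓞 ℚ) ∈ v.asIdeal ↔ (natGenerator v : ℤ) ∣ n := by
  rw [← Ideal.mem_span_singleton, span_natGenerator]
  constructor
  · intro h
    have := Ideal.mem_map_of_mem (Rat.IsIntegralClosure.intEquiv (𝓞 ℚ)) h
    simpa using this
  · intro h
    rw [Ideal.mem_map_iff_of_surjective _ (Rat.IsIntegralClosure.intEquiv (𝓞 ℚ)).surjective] at h
    obtain ⟨x, hx, hxn⟩ := h
    have : x = ((n : ℤ) : 𝓞 ℚ) := by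
      apply (Rat.IsIntegralClosure.intEquiv (𝓞 ℚ)).injective
      rw [hxn]
      simp
    rwa [← this]

open Rat.HeightOneSpectrum in
/-- the trace at a place of `ℚ` -/
theorem ap_rat (a b : ℤ) (v : HeightOneSpectrum (𝓞 ℚ)) :
    ap ((a : ℤ) : 𝓞 ℚ) ((b : ℤ) : 𝓞 ℚ) v = (natGenerator v : ℤ) -
      cnt (ZMod (natGenerator v)) ((a : ℤ) : ZMod (natGenerator v)) ((b : ℤ) : ZMod (natGenerator v)) := by
  obtain ⟨e⟩ := quot v
  unfold ap
  rw [absNorm_eq, Pool.Agent.Helper93.Bq.cnt_congr e.toRingHom e.bijective]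
  simp

section
variable {K : Type} [Field K] [NumberField K]

/-- the curve does not change if it is twisted by a square -/
theorem HasL.sq {a b B : 𝓞 K} (h : HasL a b B) (m : 𝓞 K)
    (h2 : ∀ v : HeightOneSpectrum (𝓞 K), B ∉ v.asIdeal → (2 : 𝓞 K) ∉ v.asIdeal)
    (hm : ∀ v : HeightOneSpectrum (𝓞 K), B ∉ v.asIdeal → m ∉ v.asIdeal) :
    HasL (m ^ 4 * a) (m ^ 6 * b) B := by
  obtain ⟨L, h1, h3, h4⟩ := h
  refine ⟨L, h1, h3, fun s hs => (h4 s hs).congr_fun fun v => ?_⟩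
  have hm2 : m ^ 2 ∉ v.1.asIdeal := fun h5 => hm v.1 v.2 (v.1.isPrime.mem_of_pow_mem _ h5)
  have h6 := (ap_twist (d := m ^ 2) a b v.1 (h2 v.1 v.2) hm2).1 ⟨m, by
    rw [sub_self]
    exact v.1.asIdeal.zero_mem⟩
  have e1 : (m ^ 2) ^ 2 * a = m ^ 4 * a := by ring
  have e2 : (m ^ 2) ^ 3 * b = m ^ 6 * b := by ring
  rw [e1, e2] at h6
  unfold ef
  rw [h6]

/-- the points -/
theorem Sol.sq {k : Type} [Field k] {a b : k} (h : (Sol k a b).Finite) (m : k) (hm : m ≠ 0) :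
    (Sol k (m ^ 4 * a) (m ^ 6 * b)).Finite := by
  refine (h.image fun q => (m ^ 2 * q.1, m ^ 3 * q.2)).subset ?_
  rintro ⟨x, y⟩ hxy
  have h1 : y ^ 2 = x ^ 3 + m ^ 4 * a * x + m ^ 6 * b := hxy
  refine ⟨(x / m ^ 2, y / m ^ 3), ?_, ?_⟩
  · show (y / m ^ 3) ^ 2 = (x / m ^ 2) ^ 3 + a * (x / m ^ 2) + b
    field_simp
    linear_combination h1
  · apply Prod.ext
    · show m ^ 2 * (x / m ^ 2) = x
      field_simp
    · show m ^ 3 * (y / m ^ 3) = y
      field_simp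

end

end Pool.Agent.Helper93.X49
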