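import Mathlib
import Pool.Agent.Helper93.Tq.Mono

/-!
# Denominators of Euler factors
-/

set_option autoImplicit false
set_option linter.unusedSectionVars false

open NumberField IsDedekindDomain

namespace Pool.Agent.Helper93.X49

/-- the denominators of the Euler factors do not vanish -/
lemma den_ne (a : ℤ) (q : ℕ) (ha : |(a : ℝ)| ≤ 2 * Real.sqrt q) (hq : 2 ≤ q) (ε : ℂ) (hε : ‖ε‖ ≤ 1)
    (s : ℂ) (hs : 1 / 2 < s.re) :
    1 - (a : ℂ) * (ε * (q : ℂ) ^ (-s)) + (q : ℂ) * (ε * (q : ℂ) ^ (-s)) ^ 2 ≠ 0 := by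
  obtain ⟨α, β, h3, h4, h5, h6⟩ := Pool.Agent.Helper93.Tq.roots a q ha
  have hn1 : (1 : ℝ) < q := by exact_mod_cast hq
  have hn0 : (0 : ℝ) < q := by linarith
  set X : ℂ := (q : ℂ) ^ (-s) with hX
  have hXn : ‖X‖ = (q : ℝ) ^ (-s.re) := by
    rw [hX, Complex.norm_natCast_cpow_of_pos (by omega), Complex.neg_re]
  have key : ∀ z : ℂ, ‖z‖ ^ 2 = q → 1 - z * (ε * X) ≠ 0 := by
    intro z hz h7
    have h8 : z * (ε * X) = 1 := by linear_combination -h7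
    have h9 : ‖z‖ * (‖ε‖ * ‖X‖) = 1 := by rw [← norm_mul, ← norm_mul, h8, norm_one]
    have h9' : 1 ≤ ‖z‖ * ‖X‖ := by
      calc (1 : ℝ) = ‖z‖ * (‖ε‖ * ‖X‖) := h9.symm
        _ ≤ ‖z‖ * (1 * ‖X‖) := by
            apply mul_le_mul_of_nonneg_left _ (norm_nonneg _)
            exact mul_le_mul_of_nonneg_right hε (norm_nonneg _)
        _ = ‖z‖ * ‖X‖ := by rw [one_mul]
    have h10 : 1 ≤ (q : ℝ) * ((q : ℝ) ^ (-s.re)) ^ 2 := by
      rw [← hXn, ← hz, ← mul_pow]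
      exact one_le_pow₀ h9'
    have h11 : 1 ≤ (q : ℝ) ^ (1 + -s.re * 2) := by
      rw [Real.rpow_add hn0, Real.rpow_one, Real.rpow_mul hn0.le, Real.rpow_two]
      exact h10
    have h12 : (q : ℝ) ^ (1 + -s.re * 2) < 1 :=
      Real.rpow_lt_one_of_one_lt_of_neg hn1 (by linarith)
    linarith
  have h7 : 1 - (a : ℂ) * (ε * X) + (q : ℂ) * (ε * X) ^ 2 = (1 - α * (ε * X)) * (1 - β * (ε * X)) := by
    rw [← h3]
    linear_combination -(ε * X) ^ 2 * h4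
  rw [h7]
  exact mul_ne_zero (key α h5) (key β h6)

end Pool.Agent.Helper93.X49
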