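import Mathlib
import Pool.Agent.Helper93.X49.Lf
import Pool.Agent.R428.Q0.Fh

/-!
# The twists of `X_0(49)` by `-7 D`
-/

set_option autoImplicit false
set_option linter.unusedSectionVars false
set_option linter.style.haveILetI false

open NumberField IsDedekindDomain

namespace Pool.Agent.Helper93.X49

open Pool.Agent.Helper93.Bq (cnt ap ef HasL Good card_eq cnt_twist Sol)
open Pool.Agent.Y698 Pool.Agent.Y698.SG
open Pool.Agent.Results.MP_4a9ea6_nt.TwoPartTwistsX49 (Adm core inert split inq spl union_eq mat_eq adm_mod)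

/-- the points of the twist by `-7 D` -/
theorem sol_cm {D : ℕ} (h : Adm D)
    (hdet : (Pool.Agent.Results.MP_4a9ea6_nt.TwoPartTwistsX49.mat D).det ≠ 0) :
    (Sol ℚ (-35 * (-7 * (D : ℚ)) ^ 2) (-98 * (-7 * (D : ℚ)) ^ 3)).Finite := by
  classical
  rw [← mat_eq D] at hdet
  obtain ⟨F, _, _, _, a, ha, V, hC, -, -, -⟩ := Pool.Agent.R428.Q0.exists_c0 ℚ
    (fun k => ⟨k, (Rat.cast_id k).symm⟩) (inq h) (spl h) hdet
  have hfin := Pool.Agent.R428.Q0.pt_finiteD hC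
  have hD0 : DD F (inert D ∪ split D) ≠ 0 := DD_ne fun q hq => (hC.inS q hq).1
  obtain ⟨n1, n2, n3⟩ := roots_neD ha hD0
  have hm := eA_mul ha
  have hadd := eA_add ha
  have hs := s_sq ha
  have hDD : DD F (inert D ∪ split D) = (D : F) := by
    rw [DD_cast, union_eq, Nat.prod_primeFactors_of_squarefree h.1]
  rw [hDD] at hfin hD0 n1 n2 n3
  set s : F := 2 * a - 1 with hsd
  have hs0 : s ≠ 0 := by
    intro h0
    rw [h0] at hs
    norm_num at hs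
  have hQ : ∀ Q : {Q : ℚ × ℚ // Q ∈ Sol ℚ (-35 * (-7 * (D : ℚ)) ^ 2) (-98 * (-7 * (D : ℚ)) ^ 3)},
      (Pool.Agent.H437R2.Man.MW.crv (0 : F) (-((D : F) * eA a)) (-((D : F) * eB a))).toAffine.Nonsingular
        (((Q.1.1 : ℚ) : F) / s ^ 2 - 7 * (D : F)) (((Q.1.2 : ℚ) : F) / s ^ 3) := by
    rintro ⟨⟨x, y⟩, h⟩
    apply Pool.Agent.H437R2.Man.MW.crv_nonsing n1 n2 n3
    have h1 : y ^ 2 = x ^ 3 + -35 * (-7 * (D : ℚ)) ^ 2 * x + -98 * (-7 * (D : ℚ)) ^ 3 := h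
    have h2 : ((y : ℚ) : F) ^ 2 = ((x : ℚ) : F) ^ 3 + -35 * (-7 * (D : F)) ^ 2 * ((x : ℚ) : F) +
        -98 * (-7 * (D : F)) ^ 3 := by
      have := congrArg (fun z : ℚ => (z : F)) h1
      push_cast at this
      exact this
    simp only
    have h3 : (((y : ℚ) : F) / s ^ 3) ^ 2 = (((x : ℚ) : F) / s ^ 2) ^ 3 -
        35 * (D : F) ^ 2 * (((x : ℚ) : F) / s ^ 2) - 98 * (D : F) ^ 3 := by
      have h5 : (-7 : F) = s ^ 2 := hs.symm
      rw [h5] at h2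
      field_simp
      linear_combination h2
    rw [h3]
    linear_combination (D : F) * (((x : ℚ) : F) / s ^ 2 - 7 * (D : F)) ^ 2 * hadd -
      (D : F) ^ 2 * (((x : ℚ) : F) / s ^ 2 - 7 * (D : F)) * hm
  have hinj : Function.Injective (fun Q : {Q : ℚ × ℚ // Q ∈ Sol ℚ (-35 * (-7 * (D : ℚ)) ^ 2)
      (-98 * (-7 * (D : ℚ)) ^ 3)} => (WeierstrassCurve.Affine.Point.some _ _ (hQ Q) :
        Pool.Agent.H437R2.Man.MW.Pt (0 : F) (-((D : F) * eA a)) (-((D : F) * eB a)))) := by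
    rintro ⟨⟨x, y⟩, h⟩ ⟨⟨x', y'⟩, h'⟩ he
    simp only [WeierstrassCurve.Affine.Point.some.injEq] at he
    obtain ⟨e1, e2⟩ := he
    have e3 : ((x : ℚ) : F) = x' := by
      have := congrArg (fun z => (z + 7 * (D : F)) * s ^ 2) e1
      simp only [sub_add_cancel] at this
      rwa [div_mul_cancel₀ _ (pow_ne_zero 2 hs0), div_mul_cancel₀ _ (pow_ne_zero 2 hs0)] at this
    have e4 : ((y : ℚ) : F) = y' := by
      have := congrArg (fun z => z * s ^ 3) e2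
      rwa [div_mul_cancel₀ _ (pow_ne_zero 3 hs0), div_mul_cancel₀ _ (pow_ne_zero 3 hs0)] at this
    have e5 : x = x' := by exact_mod_cast e3
    have e6 : y = y' := by exact_mod_cast e4
    subst e5
    subst e6
    rfl
  have hf : Finite {Q : ℚ × ℚ // Q ∈ Sol ℚ (-35 * (-7 * (D : ℚ)) ^ 2) (-98 * (-7 * (D : ℚ)) ^ 3)} :=
    Finite.of_injective _ hinj
  exact Set.toFinite _

open Rat.HeightOneSpectrum in
/-- the L-function of the twist by `-7 D` -/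
theorem hasL_cm {D : ℕ} (h : Adm D)
    (hdet : (Pool.Agent.Results.MP_4a9ea6_nt.TwoPartTwistsX49.mat D).det ≠ 0) {B : 𝓞 ℚ} (hB : B ≠ 0)
    (h2 : ∀ v : HeightOneSpectrum (𝓞 ℚ), B ∉ v.asIdeal → ((2 : ℤ) : 𝓞 ℚ) ∉ v.asIdeal)
    (h7 : ∀ v : HeightOneSpectrum (𝓞 ℚ), B ∉ v.asIdeal → ((7 : ℤ) : 𝓞 ℚ) ∉ v.asIdeal)
    (hD : ∀ v : HeightOneSpectrum (𝓞 ℚ), B ∉ v.asIdeal → ((D : ℤ) : 𝓞 ℚ) ∉ v.asIdeal) :
    HasL (((-35 * (-7 * (D : ℤ)) ^ 2 : ℤ)) : 𝓞 ℚ) (((-98 * (-7 * (D : ℤ)) ^ 3 : ℤ)) : 𝓞 ℚ) B := by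
  classical
  obtain ⟨L, k1, k2, k3⟩ := hasL_x49 h hdet hB h2 h7 hD
  refine ⟨L, k1, k2, fun s hs => (k3 s hs).congr_fun fun v => ?_⟩
  have hp := prime_natGenerator v.1
  have : Fact (natGenerator v.1).Prime := ⟨hp⟩
  have hpd : natGenerator v.1 = natGenerator v.1 := rfl
  set p := natGenerator v.1 with hpd
  have hp2 : p ≠ 2 := by
    intro h3
    apply h2 v.1 v.2
    rw [mem_iff, ← hpd, h3]
    norm_num
  have hp7 : p ≠ 7 := by
    intro h3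
    apply h7 v.1 v.2
    rw [mem_iff, ← hpd, h3]
    norm_num
  have hpD : ¬ (p : ℤ) ∣ (D : ℤ) := by
    intro h3
    apply hD v.1 v.2
    rw [mem_iff]
    exact h3
  have hk : ringChar (ZMod p) ≠ 2 := by rwa [ZMod.ringChar_zmod_n]
  have hD0 : ((D : ℤ) : ZMod p) ≠ 0 := by
    intro h3
    exact hpD ((ZMod.intCast_zmod_eq_zero_iff_dvd _ _).1 h3)
  have h70 : ((-7 : ℤ) : ZMod p) ≠ 0 := by
    intro h3
    rw [ZMod.intCast_zmod_eq_zero_iff_dvd] at h3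
    have h4 : (p : ℤ) ∣ 7 := by simpa using h3
    have h5 : p ∣ 7 := by exact_mod_cast h4
    exact hp7 ((Nat.prime_dvd_prime_iff_eq hp (by norm_num)).1 h5)
  have t1 := cnt_twist hk ((-35 : ℤ) : ZMod p) ((-98 : ℤ) : ZMod p) ((D : ℤ) : ZMod p) hD0
  have t2 := cnt_twist hk ((-35 : ℤ) : ZMod p) ((-98 : ℤ) : ZMod p) ((-7 * (D : ℤ) : ℤ) : ZMod p) (by
    push_cast
    push_cast at hD0 h70
    exact mul_ne_zero h70 hD0)
  rw [ZMod.card] at t1 t2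
  have key : ap (((-35 * (-7 * (D : ℤ)) ^ 2 : ℤ)) : 𝓞 ℚ) (((-98 * (-7 * (D : ℤ)) ^ 3 : ℤ)) : 𝓞 ℚ) v.1 =
      ap (((-35 * (D : ℤ) ^ 2 : ℤ)) : 𝓞 ℚ) (((-98 * (D : ℤ) ^ 3 : ℤ)) : 𝓞 ℚ) v.1 := by
    rw [ap_rat, ap_rat]
    have e1 : ((-35 * (-7 * (D : ℤ)) ^ 2 : ℤ) : ZMod p) =
        ((-7 * (D : ℤ) : ℤ) : ZMod p) ^ 2 * ((-35 : ℤ) : ZMod p) := by
      push_cast
      ring
    have e2 : ((-98 * (-7 * (D : ℤ)) ^ 3 : ℤ) : ZMod p) =
        ((-7 * (D : ℤ) : ℤ) : ZMod p) ^ 3 * ((-98 : ℤ) : ZMod p) := by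
      push_cast
      ring
    have e3 : ((-35 * (D : ℤ) ^ 2 : ℤ) : ZMod p) =
        ((D : ℤ) : ZMod p) ^ 2 * ((-35 : ℤ) : ZMod p) := by
      push_cast
      ring
    have e4 : ((-98 * (D : ℤ) ^ 3 : ℤ) : ZMod p) =
        ((D : ℤ) : ZMod p) ^ 3 * ((-98 : ℤ) : ZMod p) := by
      push_cast
      ring
    rw [← hpd, e1, e2, e3, e4, t1, t2]
    by_cases hsq : IsSquare (-7 : ZMod p)
    · have h5 : quadraticChar (ZMod p) ((-7 : ℤ) : ZMod p) = 1 := by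
        rw [quadraticChar_one_iff_isSquare h70]
        push_cast
        exact hsq
      rw [Int.cast_mul, map_mul, h5, one_mul]
    · have h5 := (ap_inert hp hp2 hp7 hsq).1
      have e6 : cnt (ZMod p) ((-35 : ℤ) : ZMod p) ((-98 : ℤ) : ZMod p) = Nat.card (Aff (ZMod p)) := rfl
      rw [e6, h5, mul_zero, mul_zero]
  unfold ef
  rw [key]

end Pool.Agent.Helper93.X49
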