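import Mathlib
import Pool.Agent.Helper93.Bq.Pat
import Pool.Agent.Helper93.X49.Rat

/-!
# Many primes `l ≡ 1 mod 4`, inert in `ℚ(√-7)`, which are squares modulo given primes `≡ 1 mod 4`
-/

set_option autoImplicit false
set_option linter.unusedSectionVars false
set_option linter.style.haveILetI false

open NumberField IsDedekindDomain

namespace Pool.Agent.Helper93.X49

open Pool.Agent.Helper93.Bq (Indep pattern)

/-- the integers `-1`, `-7` and the elements of `P` -/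
def SZ (P : Finset ℕ) : Finset ℤ := insert (-1) (insert (-7) (P.image fun p : ℕ => (p : ℤ)))

lemma natAbs_mem {P : Finset ℕ} {u : ℤ} (hu : u ∈ SZ P) :
    u = -1 ∨ u = -7 ∨ ∃ p ∈ P, u = (p : ℤ) := by
  unfold SZ at hu
  rcases Finset.mem_insert.1 hu with h | h
  · exact Or.inl h
  rcases Finset.mem_insert.1 h with h | h
  · exact Or.inr (Or.inl h)
  obtain ⟨p, hp, h1⟩ := Finset.mem_image.1 h
  exact Or.inr (Or.inr ⟨p, hp, h1.symm⟩)

lemma coprime_of {P : Finset ℕ} (hP : ∀ p ∈ P, p.Prime ∧ p % 4 = 1) {u v : ℤ} (hu : u ∈ SZ P)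
    (hv : v ∈ SZ P) (huv : u ≠ v) : Nat.Coprime u.natAbs v.natAbs := by
  have h7 : ∀ p ∈ P, Nat.Coprime 7 p := by
    intro p hp
    rw [Nat.coprime_primes (by norm_num) (hP p hp).1]
    have := (hP p hp).2
    omega
  rcases natAbs_mem hu with rfl | rfl | ⟨p, hp, rfl⟩
  · exact Nat.coprime_one_left _
  · rcases natAbs_mem hv with rfl | rfl | ⟨q, hq, rfl⟩
    · exact Nat.coprime_one_right _
    · exact absurd rfl huv
    · exact h7 q hq
  · rcases natAbs_mem hv with rfl | rfl | ⟨q, hq, rfl⟩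
    · exact Nat.coprime_one_right _
    · exact (h7 p hp).symm
    · rw [Int.natAbs_natCast, Int.natAbs_natCast, Nat.coprime_primes (hP p hp).1 (hP q hq).1]
      exact fun h => huv (by rw [h])

lemma sqf_of {P : Finset ℕ} (hP : ∀ p ∈ P, p.Prime ∧ p % 4 = 1) {U : Finset ℤ} (hU : U ⊆ SZ P) :
    Squarefree (∏ u ∈ U, u.natAbs) := by
  refine Finset.squarefree_prod_of_pairwise_isCoprime (fun u hu v hv huv => ?_) fun u hu => ?_
  · show IsRelPrime u.natAbs v.natAbs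
    rw [← Nat.coprime_iff_isRelPrime]
    exact coprime_of hP (hU hu) (hU hv) huv
  · rcases natAbs_mem (hU hu) with rfl | rfl | ⟨p, hp, rfl⟩
    · exact squarefree_one
    · exact (by norm_num : Nat.Prime 7).prime.squarefree
    · rw [Int.natAbs_natCast]
      exact (hP p hp).1.prime.squarefree

lemma not_sq_of {P : Finset ℕ} (hP : ∀ p ∈ P, p.Prime ∧ p % 4 = 1) {U : Finset ℤ} (hU : U ⊆ SZ P)
    (hne : U.Nonempty) : ¬ IsSquare (∏ u ∈ U, u) := by
  rintro ⟨z, hz⟩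
  have h1 : (∏ u ∈ U, u.natAbs) = z.natAbs * z.natAbs := by
    rw [← Int.natAbs_mul, ← hz]
    exact (map_prod Int.natAbsHom (fun u : ℤ => u) U).symm
  have h2 := sqf_of hP hU
  rw [h1] at h2
  have h3 : z.natAbs = 1 := by
    have := h2 z.natAbs (dvd_refl _)
    rwa [Nat.isUnit_iff] at this
  rw [h3, one_mul] at h1
  have h4 : ∀ u ∈ U, u = -1 := by
    intro u hu
    have h5 : u.natAbs ∣ 1 := by
      rw [← h1]
      exact Finset.dvd_prod_of_mem _ hu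
    rcases natAbs_mem (hU hu) with rfl | rfl | ⟨p, hp, rfl⟩
    · rfl
    · exact absurd h5 (by decide)
    · rw [Int.natAbs_natCast] at h5
      exact absurd (Nat.dvd_one.1 h5) (hP p hp).1.ne_one
  obtain ⟨u, hu⟩ := hne
  have h6 : U = {-1} := by
    ext x
    rw [Finset.mem_singleton]
    constructor
    · exact h4 x
    · rintro rfl
      rw [← h4 u hu]
      exact hu
  rw [h6, Finset.prod_singleton] at hz
  nlinarith [mul_self_nonneg z]

lemma cast_inj : Function.Injective (fun n : ℤ => ((n : ℤ) : 𝓞 ℚ)) := fun _ _ h => Int.cast_injective h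

lemma indepQ {P : Finset ℕ} (hP : ∀ p ∈ P, p.Prime ∧ p % 4 = 1) [DecidableEq (𝓞 ℚ)] :
    Indep (K := ℚ) ((SZ P).image fun n : ℤ => ((n : ℤ) : 𝓞 ℚ)) := by
  intro T hT hne hsq
  obtain ⟨U, hU, rfl⟩ := Finset.subset_image_iff.1 hT
  rw [Finset.prod_image (fun a _ b _ h => cast_inj h)] at hsq
  have e1 : (((∏ u ∈ U, ((u : ℤ) : 𝓞 ℚ)) : 𝓞 ℚ) : ℚ) = ((∏ u ∈ U, u : ℤ) : ℚ) := by
    have e2 : (∏ u ∈ U, ((u : ℤ) : 𝓞 ℚ)) = ((∏ u ∈ U, u : ℤ) : 𝓞 ℚ) := by push_cast; rfl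
    rw [e2]
    exact map_intCast (algebraMap (𝓞 ℚ) ℚ) _
  rw [e1, Rat.isSquare_intCast_iff] at hsq
  exact not_sq_of hP hU (Finset.image_nonempty.1 hne) hsq

open Filter in
open Rat.HeightOneSpectrum in
/-- **Many primes.** -/
theorem primesQ {P : Finset ℕ} (hP : ∀ p ∈ P, p.Prime ∧ p % 4 = 1) :
    ∃ c : ℝ, 0 < c ∧ ∀ᶠ X : ℕ in atTop, c * (Nat.primeCounting X : ℝ) ≤
      (Set.ncard {l : ℕ | (l.Prime ∧ l % 4 = 1 ∧ ¬ IsSquare (-7 : ZMod l) ∧ l ∉ P ∧
        ∀ p ∈ P, IsSquare (l : ZMod p)) ∧ l ≤ X} : ℝ) := by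
  classical
  obtain ⟨c, hc, h1⟩ := pattern (K := ℚ) (indepQ hP)
    ((insert (-1) (P.image fun p : ℕ => (p : ℤ))).image fun n : ℤ => ((n : ℤ) : 𝓞 ℚ)) 1 one_ne_zero
  refine ⟨c, hc, ?_⟩
  filter_upwards [h1] with X hX
  refine hX.trans ?_
  set A : Set ℕ := {l : ℕ | (l.Prime ∧ l % 4 = 1 ∧ ¬ IsSquare (-7 : ZMod l) ∧ l ∉ P ∧
        ∀ p ∈ P, IsSquare (l : ZMod p)) ∧ l ≤ X} with hA
  have hfin : A.Finite := (Set.finite_Iic X).subset fun l hl => hl.2
  have := hfin.to_subtype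
  have hcard : (Nat.card A : ℝ) = (A.ncard : ℝ) := by rw [Nat.card_coe_set_eq]
  rw [← hcard]
  have key : ∀ v : HeightOneSpectrum (𝓞 ℚ), ((1 : 𝓞 ℚ) ∉ v.asIdeal ∧ (2 : 𝓞 ℚ) ∉ v.asIdeal ∧
      ∀ d ∈ (SZ P).image (fun n : ℤ => ((n : ℤ) : 𝓞 ℚ)), d ∉ v.asIdeal ∧
        ((∃ c : 𝓞 ℚ, c ^ 2 - d ∈ v.asIdeal) ↔
          d ∈ (insert (-1) (P.image fun p : ℕ => (p : ℤ))).image fun n : ℤ => ((n : ℤ) : 𝓞 ℚ))) →
      Ideal.absNorm v.asIdeal ≤ X → natGenerator v ∈ A := by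
    rintro v ⟨-, h2, h3⟩ hn
    set l := natGenerator v with hl
    have hlp : l.Prime := prime_natGenerator v
    have hF : Fact l.Prime := ⟨hlp⟩
    have hl2 : l ≠ 2 := by
      intro h4
      apply h2
      have h5 := (mem_iff v 2).2 (by rw [← hl, h4]; norm_num)
      exact_mod_cast h5
    have hodd : Odd l := hlp.odd_of_ne_two hl2
    -- squares
    have hsq : ∀ n : ℤ, (∃ c : 𝓞 ℚ, c ^ 2 - ((n : ℤ) : 𝓞 ℚ) ∈ v.asIdeal) ↔ IsSquare (n : ZMod l) := by
      intro n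
      constructor
      · rintro ⟨c, hc⟩
        obtain ⟨m, rfl⟩ : ∃ m : ℤ, c = (m : 𝓞 ℚ) := ⟨Rat.IsIntegralClosure.intEquiv (𝓞 ℚ) c, by
          apply (Rat.IsIntegralClosure.intEquiv (𝓞 ℚ)).injective
          simp⟩
        have h4 : ((m ^ 2 - n : ℤ) : 𝓞 ℚ) ∈ v.asIdeal := by
          push_cast
          exact hc
        rw [mem_iff, ← hl, ← ZMod.intCast_zmod_eq_zero_iff_dvd] at h4
        push_cast at h4
        exact ⟨m, by linear_combination -h4⟩
      · rintro ⟨y, hy⟩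
        obtain ⟨m, rfl⟩ := ZMod.intCast_surjective y
        refine ⟨(m : 𝓞 ℚ), ?_⟩
        have h4 : ((m ^ 2 - n : ℤ) : 𝓞 ℚ) ∈ v.asIdeal := by
          rw [mem_iff, ← hl, ← ZMod.intCast_zmod_eq_zero_iff_dvd]
          push_cast
          linear_combination -hy
        push_cast at h4
        exact h4
    have hmemT : ∀ n : ℤ, ((n : ℤ) : 𝓞 ℚ) ∈ (insert (-1) (P.image fun p : ℕ => (p : ℤ))).image
        (fun n : ℤ => ((n : ℤ) : 𝓞 ℚ)) ↔ n = -1 ∨ ∃ p ∈ P, (p : ℤ) = n := by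
      intro n
      rw [Finset.mem_image]
      constructor
      · rintro ⟨m, hm, hmn⟩
        have := cast_inj hmn
        subst this
        rcases Finset.mem_insert.1 hm with h | h
        · exact Or.inl h
        · exact Or.inr (Finset.mem_image.1 h)
      · rintro (h | h)
        · exact ⟨n, by rw [h]; exact Finset.mem_insert_self _ _, rfl⟩
        · exact ⟨n, Finset.mem_insert_of_mem (Finset.mem_image.2 h), rfl⟩
    have hm1 : IsSquare (-1 : ZMod l) := by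
      obtain ⟨-, h4⟩ := h3 (((-1 : ℤ) : ℤ) : 𝓞 ℚ) (Finset.mem_image_of_mem _ (Finset.mem_insert_self _ _))
      rw [hsq, hmemT] at h4
      have := h4.2 (Or.inl rfl)
      push_cast at this
      exact this
    have hm7 : ¬ IsSquare (-7 : ZMod l) := by
      obtain ⟨-, h4⟩ := h3 (((-7 : ℤ) : ℤ) : 𝓞 ℚ) (Finset.mem_image_of_mem _
        (Finset.mem_insert_of_mem (Finset.mem_insert_self _ _)))
      rw [hsq, hmemT] at h4
      intro h5
      have h6 := h4.1 (by push_cast; exact h5)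
      rcases h6 with h6 | ⟨p, hp, h6⟩
      · exact absurd h6 (by norm_num)
      · omega
    have hl4 : l % 4 = 1 := by
      rw [ZMod.exists_sq_eq_neg_one_iff] at hm1
      have := hodd
      rw [Nat.odd_iff] at this
      omega
    have hPl : ∀ p ∈ P, p ≠ l ∧ IsSquare (l : ZMod p) := by
      intro p hp
      have hpp : Fact p.Prime := ⟨(hP p hp).1⟩
      obtain ⟨h4, h5⟩ := h3 (((p : ℤ) : ℤ) : 𝓞 ℚ) (Finset.mem_image_of_mem _
        (Finset.mem_insert_of_mem (Finset.mem_insert_of_mem (Finset.mem_image_of_mem _ hp))))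
      rw [hsq, hmemT] at h5
      have h6 := h5.2 (Or.inr ⟨p, hp, rfl⟩)
      refine ⟨?_, ?_⟩
      · rintro rfl
        apply h4
        rw [mem_iff]
      · rw [ZMod.exists_sq_eq_prime_iff_of_mod_four_eq_one (hP p hp).2 hl2]
        push_cast at h6
        exact h6
    refine ⟨⟨hlp, hl4, hm7, fun h => (hPl l h).1 rfl, fun p hp => (hPl p hp).2⟩, ?_⟩
    rw [absNorm_eq] at hn
    exact hn
  exact_mod_cast Nat.card_le_card_of_injective
    (fun v : {v : HeightOneSpectrum (𝓞 ℚ) // ((1 : 𝓞 ℚ) ∉ v.asIdeal ∧ (2 : 𝓞 ℚ) ∉ v.asIdeal ∧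
      ∀ d ∈ (SZ P).image (fun n : ℤ => ((n : ℤ) : 𝓞 ℚ)), d ∉ v.asIdeal ∧
        ((∃ c : 𝓞 ℚ, c ^ 2 - d ∈ v.asIdeal) ↔
          d ∈ (insert (-1) (P.image fun p : ℕ => (p : ℤ))).image fun n : ℤ => ((n : ℤ) : 𝓞 ℚ))) ∧
      Ideal.absNorm v.asIdeal ≤ X} => (⟨natGenerator v.1, key v.1 v.2.1 v.2.2⟩ : A))
    (fun v w h => by
      apply Subtype.ext
      have h4 : natGenerator v.1 = natGenerator w.1 := congrArg Subtype.val h
      exact (primesEquiv (R := 𝓞 ℚ)).injective (Subtype.ext h4))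

end Pool.Agent.Helper93.X49
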