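import Mathlib

/-!
# Squarefree parts; sets of numbers which are independent modulo squares
-/

set_option autoImplicit false

namespace Pool.Agent.Helper93.X49

/-- the squarefree part -/
noncomputable def sf (n : ℕ) : ℕ := (Nat.sq_mul_squarefree n).choose

lemma sf_spec (n : ℕ) : Squarefree (sf n) ∧ ∃ k, n = sf n * k ^ 2 := by
  obtain ⟨b, h1, h2⟩ := (Nat.sq_mul_squarefree n).choose_spec
  exact ⟨h2, b, by rw [mul_comm]; exact h1.symm⟩

/-- the squarefree part is unique -/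
lemma sq_uniq {N N' k k' : ℕ} (hN : Squarefree N) (hN' : Squarefree N') (hk : k ≠ 0)
    (h : N * k ^ 2 = N' * k' ^ 2) : N = N' := by
  have h0 := hN.ne_zero
  have h0' := hN'.ne_zero
  have hk' : k' ≠ 0 := by
    rintro rfl
    rw [zero_pow two_ne_zero, mul_zero, mul_eq_zero] at h
    rcases h with h | h
    · exact h0 h
    · exact hk (pow_eq_zero_iff two_ne_zero |>.1 h)
  refine Nat.eq_of_factorization_eq h0 h0' fun p => ?_
  have h1 := congrArg (fun n : ℕ => n.factorization p) h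
  simp only [Nat.factorization_mul h0 (pow_ne_zero 2 hk), Nat.factorization_mul h0' (pow_ne_zero 2 hk'),
    Nat.factorization_pow, Finsupp.add_apply, Finsupp.smul_apply, smul_eq_mul] at h1
  have h2 := Squarefree.natFactorization_le_one p hN
  have h3 := Squarefree.natFactorization_le_one p hN'
  omega

/-- no product of different elements of `S` is a square -/
def Ind (S : Finset ℕ) : Prop := ∀ T ⊆ S, T.Nonempty → ¬ IsSquare (∏ m ∈ T, m)

lemma Ind.mono {S S' : Finset ℕ} (h : Ind S) (hS : S' ⊆ S) : Ind S' :=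
  fun T hT => h T (hT.trans hS)

lemma prod_mul_prod (T T' : Finset ℕ) : (∏ m ∈ T, m) * (∏ m ∈ T', m) =
    (∏ m ∈ symmDiff T T', m) * (∏ m ∈ T ∩ T', m) ^ 2 := by
  have h1 : ∏ m ∈ T, m = (∏ m ∈ T \ T', m) * ∏ m ∈ T ∩ T', m := by
    rw [← Finset.prod_union (Finset.disjoint_sdiff_inter T T'), Finset.sdiff_union_inter]
  have h2 : ∏ m ∈ T', m = (∏ m ∈ T' \ T, m) * ∏ m ∈ T ∩ T', m := by
    rw [Finset.inter_comm, ← Finset.prod_union (Finset.disjoint_sdiff_inter T' T),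
      Finset.sdiff_union_inter]
  have h3 : ∏ m ∈ symmDiff T T', m = (∏ m ∈ T \ T', m) * ∏ m ∈ T' \ T, m := by
    rw [symmDiff_def, Finset.sup_eq_union, Finset.prod_union]
    exact disjoint_sdiff_sdiff
  rw [h1, h2, h3]
  ring

lemma isSquare_of_mul {x g y : ℕ} (hg : g ≠ 0) (h : x * g ^ 2 = y ^ 2) : IsSquare x := by
  have h1 : g ^ 2 ∣ y ^ 2 := ⟨x, by rw [← h, mul_comm]⟩
  obtain ⟨z, rfl⟩ := (Nat.pow_dvd_pow_iff two_ne_zero).1 h1
  refine ⟨z, ?_⟩
  have h2 : 0 < g ^ 2 := pow_pos (Nat.pos_of_ne_zero hg) 2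
  apply Nat.eq_of_mul_eq_mul_right h2
  rw [h]
  ring

lemma sf_inj {S : Finset ℕ} (hS : Ind S) (h0 : ∀ m ∈ S, m ≠ 0) {T T' : Finset ℕ} (hT : T ⊆ S)
    (hT' : T' ⊆ S) (h : sf (∏ m ∈ T, m) = sf (∏ m ∈ T', m)) : T = T' := by
  obtain ⟨-, k, hk⟩ := sf_spec (∏ m ∈ T, m)
  obtain ⟨-, k', hk'⟩ := sf_spec (∏ m ∈ T', m)
  have h1 := prod_mul_prod T T'
  have hg : ∏ m ∈ T ∩ T', m ≠ 0 := Finset.prod_ne_zero_iff.2 fun m hm =>
    h0 m (hT (Finset.mem_inter.1 hm).1)
  have h2 : (∏ m ∈ symmDiff T T', m) * (∏ m ∈ T ∩ T', m) ^ 2 =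
      (sf (∏ m ∈ T, m) * k * k') ^ 2 := by
    rw [← h1, hk', ← h]
    nth_rewrite 1 [hk]
    ring
  have h3 := isSquare_of_mul hg h2
  by_contra h4
  have h5 : (symmDiff T T').Nonempty := by
    rw [Finset.nonempty_iff_ne_empty, Ne, Finset.symmDiff_eq_empty]
    exact h4
  refine hS _ ?_ h5 h3
  intro x hx
  rcases Finset.mem_symmDiff.1 hx with h | h
  · exact hT h.1
  · exact hT' h.1

/-- adding a new prime -/
lemma Ind.insert {S : Finset ℕ} (hS : Ind S) {l : ℕ} (hl : l.Prime) (hlS : ∀ m ∈ S, ¬ l ∣ m) :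
    Ind (insert l S) := by
  intro T hT hne hsq
  by_cases hlT : l ∈ T
  · have h1 : T.erase l ⊆ S := by
      intro x hx
      have := hT (Finset.mem_of_mem_erase hx)
      rcases Finset.mem_insert.1 this with h | h
      · exact absurd h (Finset.ne_of_mem_erase hx)
      · exact h
    have h2 : ¬ l ∣ ∏ m ∈ T.erase l, m := by
      intro h3
      obtain ⟨m, hm, h4⟩ := (hl.prime.dvd_finsetProd_iff _).1 h3
      exact hlS m (h1 hm) h4
    rw [← Finset.mul_prod_erase T (fun m => m) hlT] at hsq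
    obtain ⟨y, hy⟩ := hsq
    have h3 : l ∣ y * y := ⟨_, hy.symm⟩
    have h4 : l ∣ y := (hl.dvd_mul.1 h3).elim id id
    obtain ⟨z, rfl⟩ := h4
    apply h2
    refine ⟨z * z, ?_⟩
    apply Nat.eq_of_mul_eq_mul_left hl.pos
    rw [hy]
    ring
  · refine hS T ?_ hne hsq
    intro x hx
    rcases Finset.mem_insert.1 (hT hx) with h | h
    · rw [h] at hx
      exact absurd hx hlT
    · exact h

end Pool.Agent.Helper93.X49
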