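import Mathlib
import Pool.Agent.Helper93.X49.Mat
import Pool.Agent.Helper93.X49.Cm

/-!
# The twists of `X_0(49)` over the fields `ℚ(√m : m ∈ S)` and `ℚ(√-7, √m : m ∈ S)`
-/

set_option autoImplicit false
set_option linter.unusedSectionVars false

open NumberField IsDedekindDomain

namespace Pool.Agent.Helper93.X49

open Pool.Agent.Helper93.Bq (HasL Sol Indep Gen)
open Pool.Agent.Results.MP_4a9ea6_nt.TwoPartTwistsX49 (Adm mat)

/-- `U` is `S` or `S ∪ {-7}` -/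
def IsU (S : Finset ℕ) (U : Finset ℤ) : Prop :=
  U = S.image (fun m : ℕ => (m : ℤ)) ∨ U = insert (-7) (S.image fun m : ℕ => (m : ℤ))

lemma natImage {S : Finset ℕ} {T : Finset ℤ} (hT : T ⊆ S.image fun m : ℕ => (m : ℤ)) :
    ∃ T' ⊆ S, T = T'.image (fun m : ℕ => (m : ℤ)) ∧ ∏ u ∈ T, u = ((∏ m ∈ T', m : ℕ) : ℤ) := by
  obtain ⟨T', h1, rfl⟩ := Finset.subset_image_iff.1 hT
  refine ⟨T', h1, rfl, ?_⟩
  rw [Finset.prod_image (fun a _ b _ h => Nat.cast_injective h)]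
  push_cast
  rfl

lemma sub_U {S : Finset ℕ} {U : Finset ℤ} (hU : IsU S U) {T : Finset ℤ} (hT : T ⊆ U) :
    ∃ T' ⊆ S, (T = T'.image (fun m : ℕ => (m : ℤ)) ∧ ∏ u ∈ T, u = ((∏ m ∈ T', m : ℕ) : ℤ)) ∨
      ∏ u ∈ T, u = -7 * ((∏ m ∈ T', m : ℕ) : ℤ) := by
  by_cases h7 : (-7 : ℤ) ∈ T
  · have h1 : T.erase (-7) ⊆ S.image fun m : ℕ => (m : ℤ) := by
      intro x hx
      have h2 := hT (Finset.mem_of_mem_erase hx)
      rcases hU with rfl | rfl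
      · exact h2
      · rcases Finset.mem_insert.1 h2 with h3 | h3
        · exact absurd h3 (Finset.ne_of_mem_erase hx)
        · exact h3
    obtain ⟨T', h2, h3, h4⟩ := natImage h1
    refine ⟨T', h2, Or.inr ?_⟩
    rw [← h4, Finset.mul_prod_erase T (fun u => u) h7]
  · have h1 : T ⊆ S.image fun m : ℕ => (m : ℤ) := by
      intro x hx
      have h2 := hT hx
      rcases hU with rfl | rfl
      · exact h2
      · rcases Finset.mem_insert.1 h2 with h3 | h3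
        · rw [h3] at hx
          exact absurd hx h7
        · exact h3
    obtain ⟨T', h2, h3, h4⟩ := natImage h1
    exact ⟨T', h2, Or.inl ⟨h3, h4⟩⟩

/-- the image in the integers of `ℚ` -/
noncomputable def im (U : Finset ℤ) : Finset (𝓞 ℚ) :=
  open Classical in U.image fun u : ℤ => ((u : ℤ) : 𝓞 ℚ)

lemma mem_im {U : Finset ℤ} {d : 𝓞 ℚ} (hd : d ∈ im U) : ∃ u ∈ U, ((u : ℤ) : 𝓞 ℚ) = d := by
  classical
  exact Finset.mem_image.1 hd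

lemma im_mem {U : Finset ℤ} {u : ℤ} (hu : u ∈ U) : ((u : ℤ) : 𝓞 ℚ) ∈ im U := by
  classical
  exact Finset.mem_image_of_mem _ hu

lemma sub_im {U : Finset ℤ} {T : Finset (𝓞 ℚ)} (hT : T ⊆ im U) : ∃ V ⊆ U, im V = T := by
  classical
  obtain ⟨V, hV, h⟩ := Finset.subset_image_iff.1 hT
  exact ⟨V, hV, h⟩

lemma prod_im (U : Finset ℤ) : (∏ d ∈ im U, d : 𝓞 ℚ) = ((∏ u ∈ U, u : ℤ) : 𝓞 ℚ) := by
  classical
  unfold im
  rw [Finset.prod_image (fun a _ b _ h => cast_inj h)]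
  push_cast
  rfl

lemma card_im (U : Finset ℤ) : (im U).card = U.card := by
  classical
  exact Finset.card_image_of_injective _ cast_inj

lemma indep_U {S : Finset ℕ} (hI : Ind S) (h0 : ∀ m ∈ S, m ≠ 0) {U : Finset ℤ} (hU : IsU S U) :
    Indep (K := ℚ) (im U) := by
  intro T hT hne hsq
  obtain ⟨V, hV, rfl⟩ := sub_im hT
  rw [prod_im] at hsq
  have e1 : (((∏ u ∈ V, u : ℤ) : 𝓞 ℚ) : ℚ) = ((∏ u ∈ V, u : ℤ) : ℚ) :=
    map_intCast (algebraMap (𝓞 ℚ) ℚ) _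
  rw [e1, Rat.isSquare_intCast_iff] at hsq
  obtain ⟨T', h1, h2 | h2⟩ := sub_U hU hV
  · rw [h2.2, ← Rat.isSquare_intCast_iff] at hsq
    rw [Int.cast_natCast, Rat.isSquare_natCast_iff] at hsq
    refine hI T' h1 ?_ hsq
    by_contra h
    rw [Finset.not_nonempty_iff_eq_empty] at h
    subst h
    rw [h2.1] at hne
    simp [im] at hne
  · obtain ⟨z, hz⟩ := hsq
    have h3 : (0 : ℤ) < ((∏ m ∈ T', m : ℕ) : ℤ) := by
      exact_mod_cast Finset.prod_pos fun m hm => Nat.pos_of_ne_zero (h0 m (h1 hm))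
    rw [h2] at hz
    nlinarith [mul_self_nonneg z]

section
variable {S : Finset ℕ} {D : ℕ}

/-- the twists by the products -/
lemma tw_val (hS : ∀ m ∈ S, Adm m) (hD : Adm D) (hG : Gd S D) {U : Finset ℤ} (hU : IsU S U) {e : ℤ}
    (he : e = 1 ∨ e = -7) {V : Finset ℤ} (hV : V ⊆ U) :
    ∃ (N : ℕ) (e' k : ℤ), Adm N ∧ (mat N).det ≠ 0 ∧ (e' = 1 ∨ e' = -7) ∧ k ≠ 0 ∧
      (∏ u ∈ V, u) * (e * D) = e' * N * k ^ 2 ∧ N ∣ 14 * D * ∏ m ∈ S, m ∧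
      (∀ v : HeightOneSpectrum (𝓞 ℚ), ((14 * D * ∏ m ∈ S, m : ℕ) : 𝓞 ℚ) ∉ v.asIdeal →
        ((k : ℤ) : 𝓞 ℚ) ∉ v.asIdeal) := by
  obtain ⟨T, hT, hT2⟩ := sub_U hU hV
  obtain ⟨N, k, hN, hk⟩ := exists_N hS hD hT
  have hk0 : k ≠ 0 := by
    rintro rfl
    apply prod_ne hS hD hT
    rw [hk]
    simp
  have hdvd : D * ∏ m ∈ T, m ∣ 14 * D * ∏ m ∈ S, m := by
    rw [mul_assoc]
    exact (mul_dvd_mul_left D (Finset.prod_dvd_prod_of_subset T S _ hT)).mul_left _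
  have hNd : N ∣ 14 * D * ∏ m ∈ S, m := (Dvd.intro _ hk.symm).trans hdvd
  have hkd : k ∣ 14 * D * ∏ m ∈ S, m :=
    ((Dvd.intro_left _ (by rw [hk, sq, mul_assoc] : N * k * k = _)).trans hdvd)
  have h7d : 7 ∣ 14 * D * ∏ m ∈ S, m := by
    rw [mul_assoc]
    exact Dvd.dvd.mul_right (by norm_num) _
  have hmem : ∀ z : ℕ, z ∣ 14 * D * ∏ m ∈ S, m → ∀ v : HeightOneSpectrum (𝓞 ℚ),
      ((14 * D * ∏ m ∈ S, m : ℕ) : 𝓞 ℚ) ∉ v.asIdeal → ((z : ℕ) : 𝓞 ℚ) ∉ v.asIdeal := fun z hz v hv =>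
    Pool.Agent.Helper93.Bq.not_mem_of_dvd (Nat.cast_dvd_cast hz) hv
  have hkk : ((D : ℤ) * ((∏ m ∈ T, m : ℕ) : ℤ)) = (N : ℤ) * (k : ℤ) ^ 2 := by exact_mod_cast hk
  have hkv : ∀ v : HeightOneSpectrum (𝓞 ℚ), ((14 * D * ∏ m ∈ S, m : ℕ) : 𝓞 ℚ) ∉ v.asIdeal →
      (((k : ℤ) : ℤ) : 𝓞 ℚ) ∉ v.asIdeal := by
    intro v hv
    rw [Int.cast_natCast]
    exact hmem k hkd v hv
  rcases he with rfl | rfl
  · rcases hT2 with h | h
    · refine ⟨N, 1, k, hN, hG T hT N k hN hk, Or.inl rfl, by exact_mod_cast hk0, ?_, hNd, hkv⟩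
      rw [h.2]
      linear_combination hkk
    · refine ⟨N, -7, k, hN, hG T hT N k hN hk, Or.inr rfl, by exact_mod_cast hk0, ?_, hNd, hkv⟩
      rw [h]
      linear_combination -7 * hkk
  · rcases hT2 with h | h
    · refine ⟨N, -7, k, hN, hG T hT N k hN hk, Or.inr rfl, by exact_mod_cast hk0, ?_, hNd, hkv⟩
      rw [h.2]
      linear_combination -7 * hkk
    · refine ⟨N, 1, 7 * k, hN, hG T hT N k hN hk, Or.inl rfl,
        mul_ne_zero (by norm_num) (by exact_mod_cast hk0), ?_, hNd, ?_⟩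
      · rw [h]
        linear_combination 49 * hkk
      · intro v hv
        push_cast
        intro h3
        rcases v.isPrime.mem_or_mem h3 with h4 | h4
        · exact hmem 7 h7d v hv (by exact_mod_cast h4)
        · exact hmem k hkd v hv h4

lemma sol_e {N : ℕ} (h : Adm N) (hdet : (mat N).det ≠ 0) {e : ℤ} (he : e = 1 ∨ e = -7) :
    (Sol ℚ (-35 * ((e : ℚ) * N) ^ 2) (-98 * ((e : ℚ) * N) ^ 3)).Finite := by
  rcases he with rfl | rfl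
  · have := sol_x49 h hdet
    rw [Int.cast_one, one_mul]
    exact this
  · have := sol_cm h hdet
    push_cast
    exact this

lemma hasL_e {N : ℕ} (h : Adm N) (hdet : (mat N).det ≠ 0) {e : ℤ} (he : e = 1 ∨ e = -7) {B : 𝓞 ℚ}
    (hB : B ≠ 0)
    (h2 : ∀ v : HeightOneSpectrum (𝓞 ℚ), B ∉ v.asIdeal → ((2 : ℤ) : 𝓞 ℚ) ∉ v.asIdeal)
    (h7 : ∀ v : HeightOneSpectrum (𝓞 ℚ), B ∉ v.asIdeal → ((7 : ℤ) : 𝓞 ℚ) ∉ v.asIdeal)
    (hD : ∀ v : HeightOneSpectrum (𝓞 ℚ), B ∉ v.asIdeal → ((N : ℤ) : 𝓞 ℚ) ∉ v.asIdeal) :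
    HasL (((-35 * (e * (N : ℤ)) ^ 2 : ℤ)) : 𝓞 ℚ) (((-98 * (e * (N : ℤ)) ^ 3 : ℤ)) : 𝓞 ℚ) B := by
  rcases he with rfl | rfl
  · have := hasL_x49 h hdet hB h2 h7 hD
    rw [one_mul]
    exact this
  · exact hasL_cm h hdet hB h2 h7 hD

/-- the fields -/
theorem fld (hS : ∀ m ∈ S, Adm m) (hD : Adm D) (hI : Ind S) (hG : Gd S D) {U : Finset ℤ}
    (hU : IsU S U) (F : Type) [Field F] [NumberField F] (r : ℤ → F)
    (hr : ∀ u ∈ U, r u ^ 2 = (u : F)) (hgen : ∀ E : Subfield F, (∀ u ∈ U, r u ∈ E) → E = ⊤) :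
    Module.finrank ℚ F = 2 ^ U.card ∧ ∀ e : ℤ, e = 1 ∨ e = -7 →
      (Sol F (-35 * ((e : F) * (D : F)) ^ 2) (-98 * ((e : F) * (D : F)) ^ 3)).Finite ∧
      HasL (-35 * ((e : 𝓞 F) * (D : 𝓞 F)) ^ 2) (-98 * ((e : 𝓞 F) * (D : 𝓞 F)) ^ 3)
        ((14 * D * ∏ m ∈ S, m : ℕ) : 𝓞 F) := by
  classical
  -- integral square roots
  have hex : ∀ d : 𝓞 ℚ, ∃ y : 𝓞 F, ∀ u ∈ U, ((u : ℤ) : 𝓞 ℚ) = d → (y : F) = r u := by
    intro d
    by_cases hd : d ∈ im U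
    · obtain ⟨u, hu, rfl⟩ := mem_im hd
      have hint : IsIntegral ℤ (r u) := by
        have h3 : IsIntegral ℤ (r u ^ 2) := by
          rw [hr u hu]
          have h4 := isIntegral_algebraMap (R := ℤ) (A := F) (x := u)
          simpa using h4
        exact h3.of_pow (by norm_num)
      refine ⟨⟨r u, hint⟩, fun m' _ h => ?_⟩
      rw [cast_inj h]
      rfl
    · exact ⟨0, fun m hm h => absurd (h ▸ im_mem hm) hd⟩
  choose r' hr' using hex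
  have hG' : Gen (K := ℚ) (im U) F r' := by
    refine ⟨fun d hd => ?_, fun E hE => ?_⟩
    · obtain ⟨u, hu, rfl⟩ := mem_im hd
      apply RingOfIntegers.ext
      have h1 := hr' ((u : ℤ) : 𝓞 ℚ) u hu rfl
      have h2 : ((r' ((u : ℤ) : 𝓞 ℚ) ^ 2 : 𝓞 F) : F) = (r' ((u : ℤ) : 𝓞 ℚ) : F) ^ 2 := rfl
      rw [h2, h1, hr u hu, map_intCast]
      exact (map_intCast (algebraMap (𝓞 F) F) u).symm
    · have h1 : E.toSubfield = ⊤ := by
        refine hgen _ fun u hu => ?_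
        have h2 := hE _ (im_mem hu)
        rw [hr' _ u hu rfl] at h2
        exact h2
      ext x
      constructor
      · intro _
        trivial
      · intro _
        have h2 : x ∈ E.toSubfield := by
          rw [h1]
          trivial
        exact h2
  have hB0 : 14 * D * ∏ m ∈ S, m ≠ 0 := by
    have := prod_ne hS hD (Finset.Subset.refl S)
    rw [mul_assoc]
    exact mul_ne_zero (by norm_num) this
  have hB0' : ((14 * D * ∏ m ∈ S, m : ℕ) : 𝓞 ℚ) ≠ 0 := Nat.cast_ne_zero.2 hB0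
  have hdv : ∀ z : ℕ, z ∣ 14 * D * ∏ m ∈ S, m → ∀ v : HeightOneSpectrum (𝓞 ℚ),
      ((14 * D * ∏ m ∈ S, m : ℕ) : 𝓞 ℚ) ∉ v.asIdeal → ((z : ℕ) : 𝓞 ℚ) ∉ v.asIdeal := fun z hz v hv =>
    Pool.Agent.Helper93.Bq.not_mem_of_dvd (Nat.cast_dvd_cast hz) hv
  set B : ℕ := 14 * D * ∏ m ∈ S, m with hB
  have hB2 : ∀ v : HeightOneSpectrum (𝓞 ℚ), ((B : ℕ) : 𝓞 ℚ) ∉ v.asIdeal → (2 : 𝓞 ℚ) ∉ v.asIdeal := by
    intro v hv
    have h1 := hdv 2 (by rw [hB, mul_assoc]; exact Dvd.dvd.mul_right (by norm_num) _) v hv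
    exact_mod_cast h1
  have hB7 : ∀ v : HeightOneSpectrum (𝓞 ℚ), ((B : ℕ) : 𝓞 ℚ) ∉ v.asIdeal → (7 : 𝓞 ℚ) ∉ v.asIdeal := by
    intro v hv
    have h1 := hdv 7 (by rw [hB, mul_assoc]; exact Dvd.dvd.mul_right (by norm_num) _) v hv
    exact_mod_cast h1
  have hDB : D ∣ B := by rw [hB]; exact (dvd_mul_left _ _).mul_right _
  obtain ⟨-, t2, t3, t4⟩ := Pool.Agent.Helper93.Bq.tower (K := ℚ) ((B : ℕ) : 𝓞 ℚ) hB2 (im U)
    (fun d hd v hv => by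
      obtain ⟨u, hu, rfl⟩ := mem_im hd
      have hcase : u = -7 ∨ ∃ m ∈ S, u = (m : ℤ) := by
        rcases hU with rfl | rfl
        · obtain ⟨m, hm, h⟩ := Finset.mem_image.1 hu
          exact Or.inr ⟨m, hm, h.symm⟩
        · rcases Finset.mem_insert.1 hu with h | h
          · exact Or.inl h
          · obtain ⟨m, hm, h⟩ := Finset.mem_image.1 h
            exact Or.inr ⟨m, hm, h.symm⟩
      rcases hcase with rfl | ⟨m, hm, rfl⟩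
      · push_cast
        rw [neg_mem_iff]
        exact hB7 v hv
      · rw [Int.cast_natCast]
        exact hdv m (by rw [hB]; exact (Finset.dvd_prod_of_mem _ hm).mul_left _) v hv)
    (indep_U hI (fun m hm => (hS m hm).1.ne_zero) hU) F r' hG'
  rw [card_im] at t2
  refine ⟨t2, fun e he => ?_⟩
  have he0 : e ≠ 0 := by rcases he with rfl | rfl <;> norm_num
  refine ⟨?_, ?_⟩
  · -- the points
    have hD0 : (D : ℚ) ≠ 0 := Nat.cast_ne_zero.2 hD.1.ne_zero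
    have h1 := t4 (-35 * ((e : ℚ) * D) ^ 2) (-98 * ((e : ℚ) * D) ^ 3) (by
      have e1 : 4 * (-35 * ((e : ℚ) * D) ^ 2) ^ 3 + 27 * (-98 * ((e : ℚ) * D) ^ 3) ^ 2 =
          87808 * ((e : ℚ) * D) ^ 6 := by ring
      rw [e1]
      exact mul_ne_zero (by norm_num) (pow_ne_zero _ (mul_ne_zero (by exact_mod_cast he0) hD0))) (by
      intro T hT
      obtain ⟨V, hV, rfl⟩ := sub_im hT
      obtain ⟨N, e', k, hN, hdet, he', hk0, hk, -, -⟩ := tw_val hS hD hG hU he hV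
      have h2 := sol_e hN hdet he'
      have h4 := Pool.Agent.Helper93.X49.Sol.sq h2 (k : ℚ) (by exact_mod_cast hk0)
      have e1 : (((∏ d ∈ im V, d : 𝓞 ℚ)) : ℚ) = ((∏ u ∈ V, u : ℤ) : ℚ) := by
        rw [prod_im]
        exact map_intCast (algebraMap (𝓞 ℚ) ℚ) _
      rw [e1]
      have e2 : ((∏ u ∈ V, u : ℤ) : ℚ) * ((e : ℚ) * (D : ℚ)) = (e' : ℚ) * (N : ℚ) * (k : ℚ) ^ 2 := by
        exact_mod_cast congrArg (fun z : ℤ => (z : ℚ)) hk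
      have e3 : (((∏ u ∈ V, u : ℤ) : ℚ)) ^ 2 * (-35 * ((e : ℚ) * (D : ℚ)) ^ 2) =
          (k : ℚ) ^ 4 * (-35 * ((e' : ℚ) * (N : ℚ)) ^ 2) := by
        calc (((∏ u ∈ V, u : ℤ) : ℚ)) ^ 2 * (-35 * ((e : ℚ) * (D : ℚ)) ^ 2) =
              -35 * (((∏ u ∈ V, u : ℤ) : ℚ) * ((e : ℚ) * (D : ℚ))) ^ 2 := by ring
          _ = _ := by rw [e2]; ring
      have e4 : (((∏ u ∈ V, u : ℤ) : ℚ)) ^ 3 * (-98 * ((e : ℚ) * (D : ℚ)) ^ 3) =
          (k : ℚ) ^ 6 * (-98 * ((e' : ℚ) * (N : ℚ)) ^ 3) := by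
        calc (((∏ u ∈ V, u : ℤ) : ℚ)) ^ 3 * (-98 * ((e : ℚ) * (D : ℚ)) ^ 3) =
              -98 * (((∏ u ∈ V, u : ℤ) : ℚ) * ((e : ℚ) * (D : ℚ))) ^ 3 := by ring
          _ = _ := by rw [e2]; ring
      rw [e3, e4]
      exact h4)
    simp only [map_mul, map_neg, map_pow, map_natCast, map_intCast, map_ofNat] at h1
    exact h1
  · -- the `L`-function
    have hL := t3 (-35 * ((e : 𝓞 ℚ) * D) ^ 2) (-98 * ((e : 𝓞 ℚ) * D) ^ 3) (by
      intro v hv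
      have e1 : 4 * (-35 * ((e : 𝓞 ℚ) * D) ^ 2) ^ 3 + 27 * (-98 * ((e : 𝓞 ℚ) * D) ^ 3) ^ 2 =
          2 ^ 8 * (7 ^ 3 * ((e : 𝓞 ℚ) * D) ^ 6) := by ring
      rw [e1]
      have hev : (e : 𝓞 ℚ) ∉ v.asIdeal := by
        rcases he with rfl | rfl
        · rw [Int.cast_one]
          exact fun h => v.isPrime.ne_top ((Ideal.eq_top_iff_one _).2 h)
        · push_cast
          rw [neg_mem_iff]
          exact hB7 v hv
      intro h2
      rcases v.isPrime.mem_or_mem h2 with h3 | h3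
      · exact hB2 v hv (v.isPrime.mem_of_pow_mem _ h3)
      · rcases v.isPrime.mem_or_mem h3 with h4 | h4
        · exact hB7 v hv (v.isPrime.mem_of_pow_mem _ h4)
        · rcases v.isPrime.mem_or_mem (v.isPrime.mem_of_pow_mem _ h4) with h5 | h5
          · exact hev h5
          · exact hdv D hDB v hv h5) (by
      intro T hT
      obtain ⟨V, hV, rfl⟩ := sub_im hT
      obtain ⟨N, e', k, hN, hdet, he', hk0, hk, hNB, hkv⟩ := tw_val hS hD hG hU he hV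
      have h2 := hasL_e hN hdet he' hB0'
        (fun v hv => by exact_mod_cast hB2 v hv) (fun v hv => by exact_mod_cast hB7 v hv)
        (fun v hv => by exact_mod_cast hdv N hNB v hv)
      have h4 := Pool.Agent.Helper93.X49.HasL.sq h2 ((k : ℤ) : 𝓞 ℚ) hB2 (fun v hv => hkv v hv)
      rw [prod_im]
      have e2 : ((∏ u ∈ V, u : ℤ) : 𝓞 ℚ) * ((e : 𝓞 ℚ) * (D : 𝓞 ℚ)) =
          (e' : 𝓞 ℚ) * (N : 𝓞 ℚ) * (k : 𝓞 ℚ) ^ 2 := by
        exact_mod_cast congrArg (fun z : ℤ => (z : 𝓞 ℚ)) hk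
      have e3 : (((∏ u ∈ V, u : ℤ) : 𝓞 ℚ)) ^ 2 * (-35 * ((e : 𝓞 ℚ) * (D : 𝓞 ℚ)) ^ 2) =
          (k : 𝓞 ℚ) ^ 4 * ((-35 * (e' * (N : ℤ)) ^ 2 : ℤ) : 𝓞 ℚ) := by
        calc (((∏ u ∈ V, u : ℤ) : 𝓞 ℚ)) ^ 2 * (-35 * ((e : 𝓞 ℚ) * (D : 𝓞 ℚ)) ^ 2) =
              -35 * (((∏ u ∈ V, u : ℤ) : 𝓞 ℚ) * ((e : 𝓞 ℚ) * (D : 𝓞 ℚ))) ^ 2 := by ring
          _ = _ := by rw [e2]; push_cast; ring
      have e4 : (((∏ u ∈ V, u : ℤ) : 𝓞 ℚ)) ^ 3 * (-98 * ((e : 𝓞 ℚ) * (D : 𝓞 ℚ)) ^ 3) =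
          (k : 𝓞 ℚ) ^ 6 * ((-98 * (e' * (N : ℤ)) ^ 3 : ℤ) : 𝓞 ℚ) := by
        calc (((∏ u ∈ V, u : ℤ) : 𝓞 ℚ)) ^ 3 * (-98 * ((e : 𝓞 ℚ) * (D : 𝓞 ℚ)) ^ 3) =
              -98 * (((∏ u ∈ V, u : ℤ) : 𝓞 ℚ) * ((e : 𝓞 ℚ) * (D : 𝓞 ℚ))) ^ 3 := by ring
          _ = _ := by rw [e2]; push_cast; ring
      rw [e3, e4]
      exact h4)
    have f1 : algebraMap (𝓞 ℚ) (𝓞 F) ((B : ℕ) : 𝓞 ℚ) = ((B : ℕ) : 𝓞 F) := map_natCast _ _
    have f2 : algebraMap (𝓞 ℚ) (𝓞 F) (-35 * ((e : 𝓞 ℚ) * D) ^ 2) = -35 * ((e : 𝓞 F) * D) ^ 2 := by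
      rw [map_mul, map_neg, map_pow, map_mul, map_intCast, map_natCast, map_ofNat]
    have f3 : algebraMap (𝓞 ℚ) (𝓞 F) (-98 * ((e : 𝓞 ℚ) * D) ^ 3) = -98 * ((e : 𝓞 F) * D) ^ 3 := by
      rw [map_mul, map_neg, map_pow, map_mul, map_intCast, map_natCast, map_ofNat]
    rw [f1, f2, f3] at hL
    exact hL

end

/-- the fields exist -/
theorem exists_fld (U : Finset ℤ) : ∃ (F : Type) (_ : Field F) (_ : NumberField F) (r : ℤ → F),
    (∀ u ∈ U, r u ^ 2 = (u : F)) ∧ ∀ E : Subfield F, (∀ u ∈ U, r u ∈ E) → E = ⊤ := by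
  obtain ⟨r, hr⟩ := Pool.Agent.Helper93.Bq.exists_gen (K := ℚ) (im U)
  refine ⟨(Pool.Agent.Helper93.Bq.pS (im U)).SplittingField, inferInstance, inferInstance,
    fun u => (r u : (Pool.Agent.Helper93.Bq.pS (im U)).SplittingField), ?_, ?_⟩
  · intro u hu
    have h1 := congrArg (algebraMap (𝓞 (Pool.Agent.Helper93.Bq.pS (im U)).SplittingField)
      (Pool.Agent.Helper93.Bq.pS (im U)).SplittingField) (hr.sq u (im_mem hu))
    rw [map_pow] at h1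
    rw [h1, map_intCast, map_intCast]
  · intro E hE
    let E' : IntermediateField ℚ (Pool.Agent.Helper93.Bq.pS (im U)).SplittingField :=
      E.toIntermediateField fun x => by
        rw [eq_ratCast]
        exact SubfieldClass.ratCast_mem E x
    have h1 : E' = ⊤ := by
      refine hr.gen E' fun d hd => ?_
      obtain ⟨u, hu, rfl⟩ := mem_im hd
      exact hE u hu
    ext x
    constructor
    · intro _
      trivial
    · intro _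
      have h2 : x ∈ E' := by
        rw [h1]
        trivial
      exact h2

end Pool.Agent.Helper93.X49
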