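import Mathlib
import Pool.Agent.Helper93.Tq.Mono

/-!
# Intersections of two quadrics in `P⁵` with intermediate Jacobian isogenous to the square of a twist of
# `X_0(49)`
-/

set_option autoImplicit false
set_option linter.unusedSectionVars false
set_option linter.style.haveILetI false

open Finset Matrix NumberField IsDedekindDomain

namespace Pool.Agent.Helper93.X49

open Pool.Agent.Helper93.Bq (ap ef HasL)
open Pool.Agent.Helper93.Tq (Rel qc_sq isLF IsLF pts sx IsFrob HasL.mono)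

section
variable {K : Type} [Field K] [NumberField K]

/-- the twists of `y² = x³ - 35 x - 98` -/
lemma rel_x49 (d : 𝓞 K) (v : HeightOneSpectrum (𝓞 K)) (hd : d ∉ v.asIdeal) :
    Rel 21 112 d (-35 * d ^ 2) (-98 * d ^ 3) v := by
  intro k _ _ _ φ hφ hk
  have hd0 : φ d ≠ 0 := by
    intro h3
    apply hd
    rw [← hφ]
    exact h3
  refine Fintype.sum_equiv ((Equiv.addRight (7 : k)).trans (Equiv.mulLeft₀ (φ d) hd0)) _ _
    fun x => ?_
  have e1 : ((Equiv.addRight (7 : k)).trans (Equiv.mulLeft₀ (φ d) hd0)) x = φ d * (x + 7) := rfl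
  have h3 : φ (21 : 𝓞 K) = 21 := map_ofNat φ 21
  have h2 : φ (112 : 𝓞 K) = 112 := map_ofNat φ 112
  have h4 : φ (-35 * d ^ 2) = -35 * φ d ^ 2 := by
    rw [map_mul, map_neg, map_pow, map_ofNat]
  have h5 : φ (-98 * d ^ 3) = -98 * φ d ^ 3 := by
    rw [map_mul, map_neg, map_pow, map_ofNat]
  rw [e1, h3, h2, h4, h5]
  have e2 : (φ d * (x + 7)) ^ 3 + -35 * φ d ^ 2 * (φ d * (x + 7)) + -98 * φ d ^ 3 =
      (φ d) ^ 2 * (φ d * (x * (x ^ 2 + 21 * x + 112))) := by ring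
  rw [e2, qc_sq hd0]

/-- the threefold -/
theorem three49 {D B c κ : 𝓞 K} (h : HasL (-35 * (-7 * D) ^ 2) (-98 * (-7 * D) ^ 3) B)
    {A₀ A₁ : Matrix (Fin 6) (Fin 6) (𝓞 K)} (h0 : A₀.IsSymm) (h1 : A₁.IsSymm)
    (hdet : ∀ s t : 𝓞 K, (s • A₀ + t • A₁).det =
      -(κ ^ 2 * (21 * D * (s ^ 2 + t ^ 2) * (16 * s ^ 4 - 31 * s ^ 2 * t ^ 2 + 16 * t ^ 4))))
    (hc0 : c ≠ 0) (hBc : B ∣ c) (h42 : 42 ∣ c) (hκ : κ ∣ c) (hD : D ∣ c) (hB2 : 2 ∣ B) :
    ∃ L : ℂ → ℂ, IsLF A₀ A₁ c L ∧ L 2 ≠ 0 := by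
  classical
  have hmem : ∀ z : 𝓞 K, z ∣ c → ∀ v : HeightOneSpectrum (𝓞 K), c ∉ v.asIdeal → z ∉ v.asIdeal :=
    fun z hz v hv => Pool.Agent.Helper93.Bq.not_mem_of_dvd hz hv
  have h2c : (2 : 𝓞 K) ∣ c := (Dvd.intro 21 (by norm_num)).trans h42
  have h3c : (3 : 𝓞 K) ∣ c := (Dvd.intro 14 (by norm_num)).trans h42
  have h7c : (7 : 𝓞 K) ∣ c := (Dvd.intro 6 (by norm_num)).trans h42
  have hL : HasL (-35 * (-7 * D) ^ 2) (-98 * (-7 * D) ^ 3) c := HasL.mono h hBc hc0 fun v hv =>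
    Pool.Agent.Helper93.Bq.not_mem_of_dvd hB2 hv
  obtain ⟨L, ⟨d1, S, e1, e2⟩, e3⟩ := isLF (A₀ := (49 * D) • A₀) (A₁ := (7 : 𝓞 K) • A₁)
    (h0.smul (49 * D)) (h1.smul (7 : 𝓞 K)) (κ := 49 * κ) (A := 21)
    (B := 112) (d := -7 * D) (d' := -7 * D) (c := c) (by
      intro s t
      have e : (s • (49 * D) • A₀ + t • (7 : 𝓞 K) • A₁) =
          (7 : 𝓞 K) • ((s * (7 * D)) • A₀ + t • A₁) := by
        rw [smul_smul, smul_smul, smul_add, smul_smul, smul_smul]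
        congr 2
        · ring
        · ring
      rw [e, Matrix.det_smul, Fintype.card_fin, hdet, sx]
      ring) (by
      intro v hv
      have k2 := hmem 2 h2c v hv
      have k3 := hmem 3 h3c v hv
      have k7 := hmem 7 h7c v hv
      have kD := hmem D hD v hv
      have kκ := hmem κ hκ v hv
      have kd : -7 * D ∉ v.asIdeal := by
        rw [neg_mul, neg_mem_iff]
        exact fun h4 => (v.isPrime.mem_or_mem h4).elim k7 kD
      have k21 : (21 : 𝓞 K) ∉ v.asIdeal := by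
        rw [show (21 : 𝓞 K) = 3 * 7 by norm_num]
        exact fun h4 => (v.isPrime.mem_or_mem h4).elim k3 k7
      have kdisc : 4 * (-35 * (-7 * D) ^ 2) ^ 3 + 27 * (-98 * (-7 * D) ^ 3) ^ 2 ∉ v.asIdeal := by
        have e : 4 * (-35 * (-7 * D) ^ 2) ^ 3 + 27 * (-98 * (-7 * D) ^ 3) ^ 2 =
          2 ^ 8 * (7 ^ 3 * (-7 * D) ^ 6) := by ring
        rw [e]
        intro h4
        rcases v.isPrime.mem_or_mem h4 with h5 | h5
        · exact k2 (v.isPrime.mem_of_pow_mem _ h5)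
        · rcases v.isPrime.mem_or_mem h5 with h6 | h6
          · exact k7 (v.isPrime.mem_of_pow_mem _ h6)
          · exact kd (v.isPrime.mem_of_pow_mem _ h6)
      refine ⟨k2, ?_, k21, ?_, ?_, kd, kd, kdisc, kdisc, rel_x49 _ v kd, rel_x49 _ v kd⟩
      · rw [show (49 : 𝓞 K) * κ = 7 * (7 * κ) by ring]
        exact fun h4 => (v.isPrime.mem_or_mem h4).elim k7 fun h5 =>
          (v.isPrime.mem_or_mem h5).elim k7 kκ
      · rw [show (112 : 𝓞 K) = 2 ^ 4 * 7 by norm_num]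
        exact fun h4 => (v.isPrime.mem_or_mem h4).elim
          (fun h5 => k2 (v.isPrime.mem_of_pow_mem _ h5)) k7
      · rw [show (21 : 𝓞 K) ^ 2 - 4 * 112 = -7 by norm_num, neg_mem_iff]
        exact k7) hL hL
  refine ⟨L, ⟨d1, S, fun v hv => ⟨?_, (e1 v hv).2⟩, e2⟩, e3⟩
  intro k _ _ φ r hφ hcard
  have h4 := (e1 v hv).1 k φ r hφ hcard
  have h5 : pts ((49 * D) • A₀) ((7 : 𝓞 K) • A₁) φ = pts A₀ A₁ φ := by
    have hφD : φ D ≠ 0 := by
      intro h6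
      apply hmem D hD v hv
      rw [← hφ]
      exact h6
    have hφ7 : φ 7 ≠ 0 := by
      intro h6
      apply hmem 7 h7c v hv
      rw [← hφ]
      exact h6
    have hφ49 : φ (49 * D) ≠ 0 := by
      rw [show (49 : 𝓞 K) * D = 7 * (7 * D) by ring, map_mul, map_mul]
      exact mul_ne_zero hφ7 (mul_ne_zero hφ7 hφD)
    have ea : ((49 * D) • A₀).map φ = φ (49 * D) • A₀.map φ := by
      ext i j
      simp only [Matrix.map_apply, Matrix.smul_apply, smul_eq_mul, map_mul]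
    have eb : ((7 : 𝓞 K) • A₁).map φ = φ 7 • A₁.map φ := by
      ext i j
      simp only [Matrix.map_apply, Matrix.smul_apply, smul_eq_mul, map_mul]
    ext x
    simp only [pts, Set.mem_ofPred_eq, ea, eb, Matrix.smul_mulVec, dotProduct_smul, smul_eq_mul,
      mul_eq_zero, or_iff_right hφ7, or_iff_right hφ49]
  rw [h5] at h4
  exact h4

end

/-- the example of a pencil -/
lemma pencil49 {R : Type} [CommRing R] {D p q : R} (h : p ^ 2 + q ^ 2 = 21 * D) :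
    ∃ A₀ A₁ : Matrix (Fin 6) (Fin 6) R, A₀.IsSymm ∧ A₁.IsSymm ∧ ∀ s t : R,
      (s • A₀ + t • A₁).det =
      -(4 ^ 2 * (21 * D * (s ^ 2 + t ^ 2) * (16 * s ^ 4 - 31 * s ^ 2 * t ^ 2 + 16 * t ^ 4))) := by
  refine ⟨!![q, p, 0, 0, 0, 0; p, -q, 0, 0, 0, 0; 0, 0, 1, 0, 0, 0; 0, 0, 0, -1, 0, 0;
      0, 0, 0, 0, 31, 16; 0, 0, 0, 0, 16, 0],
    !![-p, q, 0, 0, 0, 0; q, p, 0, 0, 0, 0; 0, 0, 0, 0, 4, 0; 0, 0, 0, 0, 0, 4;
      0, 0, 4, 0, 0, 0; 0, 0, 0, 4, 0, 0], ?_, ?_, ?_⟩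
  · ext i j
    fin_cases i <;> fin_cases j <;> rfl
  · ext i j
    fin_cases i <;> fin_cases j <;> rfl
  · intro s t
    rw [← h]
    simp [Matrix.det_succ_row_zero, Fin.sum_univ_succ, Fin.succAbove]
    ring

end Pool.Agent.Helper93.X49
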